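import Mathlib
import Pool.Agent.W603.LV.Blk2

set_option autoImplicit false

/-! # Blocks of a generalised unit equation: bounds which do not depend on the divisor -/

namespace Pool.Agent.R849.FP

open FF Pool.Agent.W603.LV

variable {k K : Type*} [Field k] [Field K] [Algebra k K]

variable [CharZero k] [IsFF k K] [IsAlgClosed k]

/-- The height inequality for large divisors of the orders. -/
theorem height_ineq2 (S : Finset (Place k K)) {m N : ℕ} (hN0 : 0 < N) (hN : 2 * m ^ 2 ≤ N)
    (f : Fin (m + 1) → K) (hf0 : ∀ i, f i ≠ 0) (hsum : ∑ i, f i = 0)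
    (hlin : LinearIndependent k (fun l => f ((Fin.last m).succAbove l)))
    (hdvd : ∀ P ∉ S, ∀ i j, (N : ℤ) ∣ P.ord (f i) - P.ord (f j)) (i j : Fin (m + 1)) :
    hgt k (f i / f j) ≤ 2 * tri m * (canDeg k K + S.card) := by
  classical
  obtain ⟨D, hD⟩ := exists_der (k := k) (K := K)
  have hW := wr_ne_zero hD _ hlin
  set W := wr D (fun l => f ((Fin.last m).succAbove l)) with hWd
  -- the minimal orders
  have hmin : ∀ P : Place k K, ∃ i0, ∀ i, P.ord (f i0) ≤ P.ord (f i) := by
    intro P
    obtain ⟨i0, -, h⟩ := Finset.exists_min_image Finset.univ (fun i => P.ord (f i))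
      ⟨0, Finset.mem_univ _⟩
    exact ⟨i0, fun i => h i (Finset.mem_univ _)⟩
  choose i0 hi0 using hmin
  set μ : Place k K → ℤ := fun P => P.ord (f (i0 P)) with hμ
  -- a large finite set
  obtain ⟨T1, hT1⟩ := exists_supp (k := k) Finset.univ f
  obtain ⟨T2, hT2⟩ := exists_supp (k := k) (Finset.univ : Finset (Fin 1)) ![W]
  set T : Finset (Place k K) := T1 ∪ T2 ∪ (vo_finite hD).toFinset ∪ S with hT
  have hTf : ∀ i, ∀ P : Place k K, P.ord (f i) ≠ 0 → P ∈ T := by
    intro i P hP
    have := hT1 i (Finset.mem_univ _) P hP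
    simp [hT, this]
  have hTW : ∀ P : Place k K, P.ord W ≠ 0 → P ∈ T := by
    intro P hP
    have := hT2 0 (Finset.mem_univ _) P hP
    simp [hT, this]
  have hTv : ∀ P : Place k K, vo P D ≠ 0 → P ∈ T := by
    intro P hP
    simp [hT, hP]
  have hST : S ⊆ T := by
    intro P hP
    simp [hT, hP]
  set n : Place k K → ℤ := fun P => ((Finset.univ.filter fun i => μ P < P.ord (f i)).card : ℤ)
    with hn
  set H : ℤ := - ∑ P ∈ T, μ P with hH
  have hsumf : ∀ i, ∑ P ∈ T, P.ord (f i) = 0 := fun i => sum_ord_finset _ T (hTf i)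
  -- local estimates
  have hloc : ∀ P ∈ T, tri m * vo P D + ∑ i, P.ord (f i) - μ P -
      (if P ∈ S then tri m else ((m - 1 : ℕ) : ℤ) * n P) ≤ P.ord W := by
    intro P _
    refine local_est P hD f hf0 hsum hW (μ P) (hi0 P) (i0 P) rfl _ ?_
    by_cases hPS : P ∈ S
    · left; rw [if_pos hPS]
    · right; rw [if_neg hPS]
  have h1 := Finset.sum_le_sum hloc
  rw [sum_ord_finset W T hTW] at h1
  have h2 : ∑ P ∈ T, (tri m * vo P D + ∑ i, P.ord (f i) - μ P -
      (if P ∈ S then tri m else ((m - 1 : ℕ) : ℤ) * n P)) =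
      tri m * (- canDeg k K) + H - (tri m * S.card + ((m - 1 : ℕ) : ℤ) * ∑ P ∈ T \ S, n P) := by
    rw [Finset.sum_sub_distrib, Finset.sum_sub_distrib, Finset.sum_add_distrib, ← Finset.mul_sum,
      canDeg_finset hD T hTv, Finset.sum_comm, Finset.sum_congr rfl fun i _ => hsumf i]
    have h3 : ∑ P ∈ T, (if P ∈ S then tri m else ((m - 1 : ℕ) : ℤ) * n P) =
        tri m * S.card + ((m - 1 : ℕ) : ℤ) * ∑ P ∈ T \ S, n P := by
      rw [← Finset.sum_sdiff hST, add_comm, Finset.mul_sum]
      congr 1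
      · rw [Finset.sum_congr rfl fun P hP => if_pos hP, Finset.sum_const, nsmul_eq_mul, mul_comm]
      · exact Finset.sum_congr rfl fun P hP => if_neg (Finset.mem_sdiff.1 hP).2
    rw [h3, hH]
    simp only [Finset.sum_const_zero, add_zero]
    ring
  rw [h2] at h1
  -- powers
  have h4 : ∀ P ∈ T \ S, (N : ℤ) * n P ≤ ∑ i, (P.ord (f i) - μ P) := by
    intro P hP
    have hPS := (Finset.mem_sdiff.1 hP).2
    have h5 : (N : ℤ) * n P = ∑ i, if μ P < P.ord (f i) then (N : ℤ) else 0 := by
      rw [← Finset.sum_filter, Finset.sum_const, nsmul_eq_mul, mul_comm]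
    rw [h5]
    refine Finset.sum_le_sum fun i _ => ?_
    split_ifs with h6
    · exact Int.le_of_dvd (by linarith) (hdvd P hPS i (i0 P))
    · exact sub_nonneg.2 (hi0 P i)
  have h5 : ∀ P ∈ T, 0 ≤ ∑ i, (P.ord (f i) - μ P) := fun P _ =>
    Finset.sum_nonneg fun i _ => sub_nonneg.2 (hi0 P i)
  have h6 : ∑ P ∈ T, ∑ i, (P.ord (f i) - μ P) = (m + 1) * H := by
    rw [Finset.sum_comm]
    have : ∀ i : Fin (m + 1), ∑ P ∈ T, (P.ord (f i) - μ P) = H := by
      intro i
      rw [Finset.sum_sub_distrib, hsumf, hH]; ring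
    rw [Finset.sum_congr rfl fun i _ => this i, Finset.sum_const]
    simp
  have h7 : (N : ℤ) * ∑ P ∈ T \ S, n P ≤ (m + 1) * H := by
    rw [← h6, Finset.mul_sum]
    refine (Finset.sum_le_sum h4).trans ?_
    exact Finset.sum_le_sum_of_subset_of_nonneg Finset.sdiff_subset fun P hP _ => h5 P hP
  have hH0 : 0 ≤ H := by
    have : ∑ P ∈ T, (P.ord (f 0) - μ P) = H := by
      rw [Finset.sum_sub_distrib, hsumf, hH]; ring
    rw [← this]
    exact Finset.sum_nonneg fun P _ => sub_nonneg.2 (hi0 P 0)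
  have h8 : H ≤ 2 * tri m * (canDeg k K + S.card) := by
    have hNm : 2 * (m : ℤ) ^ 2 ≤ N := by exact_mod_cast hN
    have hN0' : (1 : ℤ) ≤ N := by exact_mod_cast hN0
    have h9 : (N : ℤ) * H ≤ N * (tri m * (canDeg k K + S.card)) +
        ((m - 1 : ℕ) : ℤ) * ((m + 1) * H) := by
      have h10 := mul_le_mul_of_nonneg_left h1 (by positivity : (0 : ℤ) ≤ N)
      have h11 := mul_le_mul_of_nonneg_left h7 (by positivity : (0 : ℤ) ≤ ((m - 1 : ℕ) : ℤ))
      nlinarith
    have h13 : 2 * (((m - 1 : ℕ) : ℤ) * ((m + 1) * H)) ≤ N * H := by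
      rcases Nat.eq_zero_or_pos m with rfl | hm
      · simp only [Nat.zero_sub, Nat.cast_zero, zero_mul, mul_zero]
        positivity
      · have h12 : ((m - 1 : ℕ) : ℤ) = m - 1 := by push_cast [Nat.cast_sub hm]; ring
        rw [h12]
        have h14 : 2 * ((m : ℤ) ^ 2) * H ≤ N * H := mul_le_mul_of_nonneg_right hNm hH0
        nlinarith
    have h15 : (N : ℤ) * H ≤ N * (2 * tri m * (canDeg k K + S.card)) := by
      nlinarith
    exact le_of_mul_le_mul_left h15 (by linarith)
  refine le_trans ?_ h8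
  -- the height of a ratio
  have hij : ∀ P : Place k K, P.ord (f i / f j) ≠ 0 → P ∈ T := by
    intro P hP
    by_contra hcon
    apply hP
    have h9 : P.ord (f i) = 0 := by
      by_contra h; exact hcon (hTf i P h)
    have h10 : P.ord (f j) = 0 := by
      by_contra h; exact hcon (hTf j P h)
    rw [P.ord_div (hf0 i) (hf0 j), h9, h10]; rfl
  rw [hgt_finset _ T hij]
  have h9 : ∑ P ∈ T, (P.ord (f j) - μ P) = H := by
    rw [Finset.sum_sub_distrib, hsumf, hH]; ring
  rw [← h9]
  refine Finset.sum_le_sum fun P _ => ?_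
  rw [P.ord_div (hf0 i) (hf0 j)]
  have := hi0 P i
  have := hi0 P j
  simp only [hμ]
  omega

/-- Blocks of a generalised unit equation; large divisors of the orders. -/
theorem blocks2 {J : Type*} [Fintype J] (S : Finset (Place k K)) {N s : ℕ}
    (hs : Fintype.card J ≤ s) (hN0 : 0 < N) (hN : 2 * (s - 1) ^ 2 ≤ N) (g : J → K)
    (hg0 : ∀ j, g j ≠ 0) (hrel : ∑ j, g j = 0)
    (hdvd : ∀ P ∉ S, ∀ i j, (N : ℤ) ∣ P.ord (g i) - P.ord (g j)) :
    ∃ R : J → J → Prop, Equivalence R ∧
      (∀ i j, R i j → hgt k (g i / g j) ≤ s * (2 * tri s * max (canDeg k K + S.card) 0)) ∧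
      ∀ (j0 : J) (A : Finset J), (∀ j, j ∈ A ↔ R j0 j) → ∑ j ∈ A, g j = 0 := by
  classical
  set χ : ℤ := max (canDeg k K + S.card) 0 with hχ
  have hχ0 : 0 ≤ χ := le_max_right _ _
  set B : ℤ := 2 * tri s * χ with hB
  have hB0 : 0 ≤ B := mul_nonneg (mul_nonneg (by positivity) (tri_nonneg s)) hχ0
  let G : SimpleGraph J :=
    { Adj := fun i j => i ≠ j ∧ hgt k (g i / g j) ≤ B
      symm := by
        refine ⟨?_⟩
        rintro i j ⟨h1, h2⟩
        refine ⟨h1.symm, ?_⟩
        rw [← hgt_inv, inv_div]; exact h2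
      loopless := ⟨fun i h => h.1 rfl⟩ }
  have hwalk : ∀ (i j : J) (p : G.Walk i j), hgt k (g i / g j) ≤ p.length * B := by
    intro i j p
    induction p with
    | nil =>
      rw [div_self (hg0 _), hgt_one]; simp
    | cons h p ih =>
      rename_i u v w
      rw [SimpleGraph.Walk.length_cons]
      have h1 : g u / g w = (g u / g v) * (g v / g w) := by
        have := hg0 v
        have := hg0 w
        field_simp
      rw [h1]
      have h2 := hgt_mul (k := k) (div_ne_zero (hg0 u) (hg0 v)) (div_ne_zero (hg0 v) (hg0 w))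
      have h3 := h.2
      push_cast
      linarith
  refine ⟨G.Reachable, G.reachable_is_equivalence, ?_, ?_⟩
  · intro i j hij
    obtain ⟨p, hp⟩ := hij.exists_isPath
    have h1 := hwalk i j p
    have h2 : p.length ≤ s := by
      have := hp.length_lt
      omega
    refine h1.trans ?_
    have h3 : (p.length : ℤ) ≤ s := by exact_mod_cast h2
    exact mul_le_mul_of_nonneg_right h3 hB0
  · intro j0 A hA
    have key := class_sum (k := k) g G.Reachable G.reachable_is_equivalence (by
      intro m e he c hc hrel' hlin i j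
      by_cases hij : e i = e j
      · rw [hij]
      apply SimpleGraph.Adj.reachable
      refine ⟨hij, ?_⟩
      have hm : m + 1 ≤ s := by
        have := Fintype.card_le_of_injective e he
        simp only [Fintype.card_fin] at this
        omega
      have h1 := height_ineq2 S hN0 (m := m) ((Nat.mul_le_mul_left 2 (Nat.pow_le_pow_left (by omega) 2)).trans hN)
        (fun i => c i • g (e i)) (fun i => smul_ne_zero (hc i) (hg0 _)) hrel' hlin (by
          intro P hP i j
          rw [ord_smul P (hc i), ord_smul P (hc j)]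
          exact hdvd P hP _ _) i j
      have h2 : hgt k (g (e i) / g (e j)) = hgt k (c i • g (e i) / c j • g (e j)) := by
        refine hgt_congr fun P => ?_
        rw [P.ord_div (hg0 _) (hg0 _), P.ord_div (smul_ne_zero (hc i) (hg0 _))
          (smul_ne_zero (hc j) (hg0 _)), ord_smul P (hc i), ord_smul P (hc j)]
      rw [h2]
      refine h1.trans ?_
      have h3 : (2 : ℤ) * tri m ≤ 2 * tri s :=
        mul_le_mul_of_nonneg_left (tri_mono (by omega)) (by positivity)
      have h4 : canDeg k K + S.card ≤ χ := le_max_left _ _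
      have h5 : (0 : ℤ) ≤ 2 * tri m := mul_nonneg (by positivity) (tri_nonneg m)
      exact (mul_le_mul_of_nonneg_left h4 h5).trans (mul_le_mul_of_nonneg_right h3 hχ0))
      (Finset.univ.filter fun j => (fun _ : J => (1 : k)) j ≠ 0).card (fun _ => 1) le_rfl
      (by simpa using hrel) j0
    simp only [one_smul] at key
    rw [← key]
    exact Finset.sum_congr (by ext j; simp [hA]) (fun _ _ => rfl)

end Pool.Agent.R849.FP
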