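import Mathlib
import Pool.Agent.R849.FP.Main

set_option autoImplicit false

/-! # Curves whose coordinates are sums of few terms with divisible orders: the dichotomy -/

namespace Pool.Agent.R849.FP

open FF MvPolynomial Pool.Agent.W603.LV Pool.Agent.W603.PV Pool.Agent.R849.UP Pool.Agent.TH143
open Pool.Agent.R849.FC hiding bd parts
open Pool.Agent.H159R3.Exp (Laur)

/-- **The dichotomy.** -/
theorem dich_core (d r : ℕ) : ∃ A : ℕ, ∀ {N : ℕ} {ι : Type}
    (F : ι → MvPolynomial (Fin (N + 1)) ℂ)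
    (_ : ∀ i, ∃ e ≤ d, (F i).IsHomogeneous e) (Q : MvPolynomial (Fin (N + 1)) ℂ)
    (_ : ∃ e ≤ d, Q.IsHomogeneous e) (M : ℕ) (_ : 2 * (d + 2) ^ (2 * (r + 1)) ≤ M)
    (K : Type) [Field K] [Algebra ℂ K] [IsFF ℂ K] (S : Finset (Place ℂ K)) (u : Fin r → K)
    (ρ : Fin r → Fin (N + 1) → K) (x : Fin (N + 1) → K), (∀ j, u j ≠ 0) →
    (∀ j, ∀ P ∉ S, (M : ℤ) ∣ P.ord (u j)) → (∀ a, x a = ∑ j, u j * ρ j a) → x ≠ 0 →
    (∀ i, aeval x (F i) = 0) → aeval x Q ≠ 0 → (∀ P ∉ S, (M : ℤ) ∣ P.ord (aeval x Q)) →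
    pht ℂ x ≤ A * (max (canDeg ℂ K + S.card) 0 + ∑ j, ∑ a, hgt ℂ (ρ j a)) ∨
    ∃ (b : Fin r → ℤ) (T : Finset (Place ℂ K)), ∀ P ∉ T, ∃ (u' : Fin r → ℂ)
      (ρ' : Fin r → Fin (N + 1) → ℂ) (w : ℂ → Fin (N + 1) → ℂ),
      (∀ j, HV P (u j) (u' j)) ∧ (∀ j a, HV P (ρ j a) (ρ' j a)) ∧ (∀ a, HV P (x a) (w 1 a)) ∧
      (∀ t a, w t a = ∑ j, ρ' j a * (u' j * t ^ b j)) ∧
      (∀ i t, t ≠ 0 → eval (w t) (F i) = 0) ∧ (∀ t, t ≠ 0 → eval (w t) Q ≠ 0) ∧
      ∃ t, t ≠ 0 ∧ ∃ a0 a1, w t a1 * w 1 a0 ≠ w t a0 * w 1 a1 := by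
  classical
  obtain ⟨cm, hcm⟩ := exists_cmax (box d (r + 1))
  refine ⟨(r + 1) * (cm * bd d (r + 1)) + 1, ?_⟩
  intro N ι F hF Q hQ M hM K _ _ _ S u0 ρ0 x hu0 huS0 hx hx0 hxF hxQ hxQS
  have hM0 : 0 < M := lt_of_lt_of_le (by positivity) hM
  obtain ⟨eQ, heQ, hQh⟩ := hQ
  -- the units together with `Q (x)`
  obtain ⟨u, hu, huS, huQ, hus, Y, hY0, hYs0, hYs, hxu⟩ : ∃ u : Fin (r + 1) → K, (∀ j, u j ≠ 0) ∧
      (∀ j, ∀ P ∉ S, (M : ℤ) ∣ P.ord (u j)) ∧ u 0 = aeval x Q ∧ (∀ j, u (Fin.succ j) = u0 j) ∧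
      ∃ Y : Fin (r + 1) × Fin (N + 1) → K, (∀ a, Y (0, a) = 0) ∧
      (∀ j a, Y (Fin.succ j, a) = ρ0 j a) ∧ ∑ p, hgt ℂ (Y p) = ∑ j, ∑ a, hgt ℂ (ρ0 j a) ∧
      ∀ a, x a = ∑ j, Y (j, a) * u j := by
    refine ⟨Fin.cons (aeval x Q) u0, fun j => ?_, fun j => ?_, rfl, fun j => rfl,
      fun p => (Fin.cons (fun _ => 0) ρ0 : Fin (r + 1) → Fin (N + 1) → K) p.1 p.2, fun a => rfl,
      fun j a => rfl, ?_, ?_⟩
    · refine Fin.cases ?_ (fun j => ?_) j
      · exact hxQ
      · exact hu0 j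
    · refine Fin.cases ?_ (fun j => ?_) j
      · exact hxQS
      · exact huS0 j
    · rw [Fintype.sum_prod_type, Fin.sum_univ_succ]
      simp only [Fin.cons_zero, Fin.cons_succ, hgt_zero, Finset.sum_const_zero, zero_add]
    · intro a
      rw [Fin.sum_univ_succ, hx a]
      simp only [Fin.cons_zero, Fin.cons_succ, zero_mul, zero_add]
      exact Finset.sum_congr rfl fun j _ => mul_comm _ _
  obtain ⟨E, hE⟩ : ∃ E, E = max (canDeg ℂ K + (S.card : ℤ)) 0 + ∑ p, hgt ℂ (Y p) := ⟨_, rfl⟩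
  rw [← hYs, ← hE]
  have hχ0 : 0 ≤ max (canDeg ℂ K + (S.card : ℤ)) 0 := le_max_right _ _
  have hYn : 0 ≤ ∑ p, hgt ℂ (Y p) := Finset.sum_nonneg fun _ _ => hgt_nonneg _
  have hE0 : 0 ≤ E := by rw [hE]; linarith
  have hYE : ∑ p, hgt ℂ (Y p) ≤ E := by rw [hE]; linarith
  obtain ⟨B, hB⟩ : ∃ B : ℤ, B = bd d (r + 1) * E := ⟨_, rfl⟩
  have hB0 : 0 ≤ B := by rw [hB]; positivity
  -- the lattice
  obtain ⟨D, hD⟩ : ∃ D : Set (Fin (r + 1) → ℤ), D = {δ | δ ∈ box d (r + 1) ∧ hgt ℂ (mo u δ) ≤ B} :=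
    ⟨_, rfl⟩
  obtain ⟨b, hb1, hb2⟩ := exists_sep (sat D) (fun M γ hM h => sat_sat D M γ hM h)
    ((box d (r + 1)).filter (fun γ => γ ∉ sat D)) (fun p hp => (Finset.mem_filter.1 hp).2)
  have hbD : ∀ γ ∈ box d (r + 1), hgt ℂ (mo u γ) ≤ bd d (r + 1) * E →
      ∑ j, γ j * b j = 0 := by
    intro γ hγ h
    rw [← hB] at h
    exact hb1 γ (subset_sat D (by rw [hD]; exact ⟨hγ, h⟩))
  have hratio : ∀ j k, b j = b k → hgt ℂ (u j / u k) ≤ cm * B := by
    intro j k hjk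
    have h1 : (Pi.single j 1 - Pi.single k 1 : Fin (r + 1) → ℤ) ∈ box d (r + 1) := by
      rw [mem_box]
      intro l
      rw [Pi.sub_apply, Pi.single_apply, Pi.single_apply]
      split_ifs <;> constructor <;> omega
    have h2 : (Pi.single j 1 - Pi.single k 1 : Fin (r + 1) → ℤ) ∈ sat D := by
      by_contra hn
      have h3 := hb2 _ (Finset.mem_filter.2 ⟨h1, hn⟩)
      apply h3
      simp only [Pi.sub_apply, sub_mul, Finset.sum_sub_distrib, Pi.single_apply, ite_mul, one_mul,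
        zero_mul, Finset.sum_ite_eq', Finset.mem_univ, if_true]
      rw [hjk, sub_self]
    rw [hD] at h2
    have h3 : hgt ℂ (mo u (Pi.single j 1 - Pi.single k 1)) ≤ cm * B :=
      hcm (fun γ => hgt ℂ (mo u γ)) (mo_lht hu) B hB0 _ h1 h2
    have h4 : mo u (Pi.single j 1 - Pi.single k 1) = u j / u k := by
      rw [sub_eq_add_neg, mo_add hu, mo_neg, div_eq_mul_inv]
      have h5 : ∀ j, mo u (Pi.single j 1) = u j := by
        intro j
        unfold mo
        rw [Finset.prod_eq_single j]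
        · rw [Pi.single_eq_same, zpow_one]
        · intro l _ hl
          rw [Pi.single_eq_of_ne hl, zpow_zero]
        · intro h; exact absurd (Finset.mem_univ j) h
      rw [h5, h5]
    rwa [h4] at h3
  let W : ℂ → Fin (N + 1) → K := fun t a => ∑ j, Y (j, a) * (u j * algebraMap ℂ K t ^ b j)
  have hW1 : W 1 = x := by
    funext a
    rw [hxu a]
    exact Finset.sum_congr rfl fun j _ => by rw [map_one, one_zpow, mul_one]
  have hxu' : (fun a => ∑ j, Y (j, a) * u j) = x := funext fun a => (hxu a).symm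
  -- equations
  have hWF : ∀ i, ∀ t : ℂ, t ≠ 0 → aeval (W t) (F i) = 0 := by
    intro i t ht
    obtain ⟨e, he, hFe⟩ := hF i
    have hdeg := hFe.totalDegree_le.trans he
    have h1 := key_fp S u hu (d := d) hM huS Y (E := E) (by rw [hE]) b hbD (ex (F i)) (ex_CDeg hdeg)
      ((ex_totalDegree hdeg).trans (Nat.le_succ _)) (by
        rw [ex_aeval, hxu']
        exact hxF i) t ht
    rw [ex_aeval] at h1
    exact h1
  have hWQ : ∀ t : ℂ, t ≠ 0 → aeval (W t) Q = u 0 * algebraMap ℂ K t ^ b 0 := by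
    intro t ht
    have hdeg := hQh.totalDegree_le.trans heQ
    have hCX : CDeg (ex Q - X 0 : MvPolynomial (Fin (r + 1))
        (MvPolynomial (Fin (r + 1) × Fin (N + 1)) ℂ)) d := by
      intro m
      rw [coeff_sub]
      refine (totalDegree_sub _ _).trans (max_le (ex_CDeg hdeg m) ?_)
      exact (CDeg.X' 0 m).trans (Nat.zero_le _)
    have h1 := key_fp S u hu (d := d) hM huS Y (E := E) (by rw [hE]) b hbD (ex Q - X 0) hCX
      ((totalDegree_sub _ _).trans (max_le ((ex_totalDegree hdeg).trans (Nat.le_succ _))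
        (by rw [totalDegree_X]; omega))) (by
        rw [eval₂_sub, eval₂_X, ex_aeval, hxu', huQ, sub_self]) t ht
    rw [eval₂_sub, eval₂_X, ex_aeval, sub_eq_zero] at h1
    exact h1
  by_cases hnc : ∃ t : ℂ, t ≠ 0 ∧ ∃ a0 a1, W t a1 * x a0 - W t a0 * x a1 ≠ 0
  · -- many curves
    right
    obtain ⟨t0, ht0, a0, a1, hDne⟩ := hnc
    obtain ⟨T1, hT1⟩ := exists_supp (k := ℂ) Finset.univ u
    obtain ⟨T2, hT2⟩ := exists_supp (k := ℂ) Finset.univ Y
    obtain ⟨T3, hT3⟩ := exists_supp (k := ℂ) (Finset.univ : Finset (Fin 1))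
      ![W t0 a1 * x a0 - W t0 a0 * x a1]
    refine ⟨fun j => b j.succ, T1 ∪ T2 ∪ T3, fun P hP => ?_⟩
    rw [Finset.mem_union, Finset.mem_union, not_or, not_or] at hP
    have hPu : ∀ j, P.ord (u j) = 0 := fun j => by
      by_contra h; exact hP.1.1 (hT1 j (Finset.mem_univ _) P h)
    have hPY : ∀ p, P.ord (Y p) = 0 := fun p => by
      by_contra h; exact hP.1.2 (hT2 p (Finset.mem_univ _) P h)
    have hPD : P.ord (W t0 a1 * x a0 - W t0 a0 * x a1) = 0 := by
      by_contra h; exact hP.2 (hT3 0 (Finset.mem_univ _) P h)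
    choose u' hu' using fun j => exists_hv (P := P) (Or.inr (hPu j).ge : Ge P 0 (u j))
    choose Y' hY' using fun p => exists_hv (P := P) (Or.inr (hPY p).ge : Ge P 0 (Y p))
    let w : ℂ → Fin (N + 1) → ℂ := fun t a => ∑ j, Y' (j, a) * (u' j * t ^ b j)
    have hw : ∀ t a, HV P (W t a) (w t a) := by
      intro t a
      refine HV.sum _ fun j _ => (hY' _).mul ((hu' _).mul ?_)
      rw [← map_zpow₀]
      exact hv_const _
    refine ⟨fun j => u' j.succ, fun j a => Y' (j.succ, a), w, fun j => ?_, fun j a => ?_,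
      fun a => ?_, fun t a => ?_, fun i t ht => ?_, fun t ht => ?_, ⟨t0, ht0, a0, a1, ?_⟩⟩
    · rw [← hus j]
      exact hu' _
    · rw [← hYs0 j a]
      exact hY' _
    · have h1 := hw 1 a
      rw [hW1] at h1
      exact h1
    · have h0 : Y' (0, a) = 0 := by
        have h1 := hY' (0, a)
        rw [hY0] at h1
        exact h1.eq_zero
      show ∑ j, Y' (j, a) * (u' j * t ^ b j) = _
      rw [Fin.sum_univ_succ, h0, zero_mul, zero_add]
    · have h1 := HV.aeval (hw t) (F i)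
      rw [hWF i t ht] at h1
      exact h1.eq_zero
    · have h1 := HV.aeval (hw t) Q
      rw [hWQ t ht, ← map_zpow₀] at h1
      have h2 := h1.unique ((hu' 0).mul (hv_const (t ^ b 0)))
      rw [h2]
      exact mul_ne_zero ((hu' 0).ne_zero (hu 0) (hPu 0)) (zpow_ne_zero _ ht)
    · have h1 := ((hw t0 a1).mul (hw 1 a0)).sub ((hw t0 a0).mul (hw 1 a1))
      rw [hW1] at h1
      exact sub_ne_zero.1 (h1.ne_zero hDne hPD)
  · -- small degree
    left
    push Not at hnc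
    obtain ⟨as, has⟩ := Function.ne_iff.1 hx0
    rw [Pi.zero_apply] at has
    let y : ℤ → Fin (N + 1) → K := fun c a =>
      ∑ j ∈ Finset.univ.filter (fun j => b j = c), Y (j, a) * u j
    have hy : ∀ a0 a1 c, y c a1 * x a0 = y c a0 * x a1 := by
      intro a0 a1 c
      have h1 := coeff_zero' Finset.univ b (fun j => Y (j, a1) * u j * x a0 -
        Y (j, a0) * u j * x a1) (fun t ht => by
          rw [← hnc t ht a0 a1]
          simp only [W]
          rw [Finset.sum_mul, Finset.sum_mul, ← Finset.sum_sub_distrib]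
          exact Finset.sum_congr rfl fun j _ => by ring) c
      rw [Finset.sum_sub_distrib, ← Finset.sum_mul, ← Finset.sum_mul] at h1
      exact sub_eq_zero.1 h1
    obtain ⟨c, hc⟩ : ∃ c, y c as ≠ 0 := by
      by_contra hcon
      push Not at hcon
      apply has
      rw [hxu as, ← Finset.sum_fiberwise_of_maps_to (t := Finset.univ.image b) (g := b)
        (fun j hj => Finset.mem_image_of_mem b hj)]
      exact Finset.sum_eq_zero fun c _ => hcon c
    obtain ⟨k, hk⟩ : ∃ k, b k = c := by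
      by_contra hcon2
      push Not at hcon2
      apply hc
      show ∑ j ∈ Finset.univ.filter (fun j => b j = c), Y (j, as) * u j = 0
      rw [Finset.filter_false_of_mem (fun j _ => hcon2 j), Finset.sum_empty]
    have hlne : y c as / (x as * u k) ≠ 0 := div_ne_zero hc (mul_ne_zero has (hu k))
    have h1 := pht_bound x ⟨as, has⟩ hlne (fun j => if b j = c then u j / u k else 0) Y (by
      intro a
      have h2 : y c a = y c as / x as * x a := by
        have h3 := hy as a c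
        field_simp
        linear_combination h3
      have h3 : y c as / (x as * u k) * x a = y c a / u k := by
        rw [h2]
        have := hu k
        field_simp
      rw [h3]
      show (∑ j ∈ Finset.univ.filter (fun j => b j = c), Y (j, a) * u j) / u k = _
      rw [Finset.sum_div, Finset.sum_filter]
      refine Finset.sum_congr rfl fun j _ => ?_
      split_ifs
      · rw [mul_div_assoc]
      · rw [mul_zero])
    have h2 : ∑ j, hgt ℂ (if b j = c then u j / u k else 0) ≤ (r + 1) * (cm * B) := by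
      have h3 : ∀ j ∈ (Finset.univ : Finset (Fin (r + 1))),
          hgt ℂ (if b j = c then u j / u k else 0) ≤ cm * B := by
        intro j _
        split_ifs with hj
        · exact hratio j k (hj.trans hk.symm)
        · rw [hgt_zero]
          positivity
      refine (Finset.sum_le_sum h3).trans ?_
      rw [Finset.sum_const, Finset.card_univ, Fintype.card_fin, nsmul_eq_mul]
      push_cast
      exact le_rfl
    refine h1.trans ((add_le_add h2 hYE).trans (le_of_eq ?_))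
    rw [hB]
    push_cast
    ring

/-- **The dichotomy.** -/
theorem dich (d r : ℕ) : ∃ A : ℕ, ∀ {N : ℕ} {ι : Type} (F : ι → MvPolynomial (Fin (N + 1)) ℂ)
    (_ : ∀ i, ∃ e ≤ d, (F i).IsHomogeneous e) (Q : MvPolynomial (Fin (N + 1)) ℂ)
    (_ : ∃ e ≤ d, Q.IsHomogeneous e) (M : ℕ) (_ : 2 * (d + 2) ^ (2 * (r + 1)) ≤ M)
    (K : Type) [Field K] [Algebra ℂ K] [IsFF ℂ K] (S : Finset (Place ℂ K)) (u : Fin r → K)
    (ρ : Fin r → Fin (N + 1) → K) (x : Fin (N + 1) → K), (∀ j, u j ≠ 0) →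
    (∀ j, ∀ P ∉ S, (M : ℤ) ∣ P.ord (u j)) → (∀ a, x a = ∑ j, u j * ρ j a) → x ≠ 0 →
    (∀ i, aeval x (F i) = 0) → aeval x Q ≠ 0 → (∀ P ∉ S, (M : ℤ) ∣ P.ord (aeval x Q)) →
    pht ℂ x ≤ A * (max (canDeg ℂ K + S.card) 0 + ∑ j, ∑ a, hgt ℂ (ρ j a)) ∨
    ∃ T : Finset (Place ℂ K), ∀ P ∉ T, ∃ y : Fin (N + 1) → ℂ, (∀ a, HV P (x a) (y a)) ∧
      ∃ C, IsGmCurve F Q C ∧ Through C y := by
  classical
  obtain ⟨A, hA⟩ := dich_core d r
  refine ⟨A, ?_⟩
  intro N ι F hF Q hQ M hM K _ _ _ S u ρ x hu huS hx hx0 hxF hxQ hxQS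
  rcases hA F hF Q hQ M hM K S u ρ x hu huS hx hx0 hxF hxQ hxQS with h | ⟨b, T, h⟩
  · exact Or.inl h
  right
  refine ⟨T, fun P hP => ?_⟩
  obtain ⟨u', ρ', w, -, -, h1, h2, h3, h4, t0, ht0, a0, a1, hnc⟩ := h P hP
  refine ⟨w 1, h1, ?_⟩
  obtain ⟨eQ, -, hQh⟩ := hQ
  obtain ⟨C, -, hC1, hC2⟩ := gm_of_laur F (fun i => ⟨_, (hF i).choose_spec.2⟩) Q hQh w
    (fun a => by
      have h1 : ∀ s : Finset (Fin r), Laur (fun t => ∑ j ∈ s, ρ' j a * (u' j * t ^ b j)) := by
        intro s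
        induction s using Finset.induction_on with
        | empty => simpa using Laur.const (0 : ℂ)
        | insert j s hj ih =>
          simp only [Finset.sum_insert hj]
          exact ((Laur.const _).mul ((Laur.const _).mul (Laur.zpow _))).add ih
      have h5 := h1 Finset.univ
      rw [show (fun t => w t a) = fun t => ∑ j, ρ' j a * (u' j * t ^ b j) from
        funext fun t => h2 t a]
      exact h5)
    (fun h0 => hnc (by rw [h0]; simp)) (fun i t ht => h3 i t ht) h4 ⟨t0, ht0, a0, a1, hnc⟩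
  exact ⟨C, hC1, hC2⟩

end Pool.Agent.R849.FP
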