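import Mathlib
import Pool.Agent.R849.FP.Dich
import Pool.Agent.R849.HP.Covers
import Pool.Agent.W603.PV.Ext

set_option autoImplicit false

/-! # Curves in varieties defined by polynomials in `M`-th powers: degrees -/

namespace Pool.Agent.R849.FP

open FF MvPolynomial Pool.Agent.W603.LV Pool.Agent.W603.PV Pool.Agent.R849.UP Pool.Agent.TH143
open Pool.Agent.R849.FC hiding bd parts
open Pool.Agent.R849.HP (pow expand_hom gm_of_mon monCurve)

variable {K : Type} [Field K] [Algebra ℂ K] [IsFF ℂ K] {N : ℕ}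

omit [IsFF ℂ K] in
theorem pord_pow (P : Place ℂ K) {y : Fin (N + 1) → K} (hy : ∃ j, y j ≠ 0) {M : ℕ} (hM : 0 < M) :
    pord P (fun a => y a ^ M) = M * pord P y := by
  obtain ⟨j, hj, h1⟩ := exists_pord P hy
  obtain ⟨l, hl, h2⟩ := exists_pord P (f := fun a => y a ^ M)
    (by obtain ⟨j, hj⟩ := hy; exact ⟨j, pow_ne_zero _ hj⟩)
  have hl' : y l ≠ 0 := fun h0 => hl (by
    show y l ^ M = 0
    rw [h0, zero_pow hM.ne'])
  have h3 := pord_le P (f := fun a => y a ^ M) (j := j) (pow_ne_zero _ hj)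
  have h4 := pord_le P hl'
  simp only [P.ord_pow] at h2 h3
  rw [h1] at h3
  refine le_antisymm h3 ?_
  rw [← h2]
  exact mul_le_mul_of_nonneg_left h4 (by positivity)

omit [IsFF ℂ K] in
theorem pht_pow {y : Fin (N + 1) → K} (hy : ∃ j, y j ≠ 0) {M : ℕ} (hM : 0 < M) :
    pht ℂ (fun a => y a ^ M) = M * pht ℂ y := by
  unfold pht
  have h1 : (fun P : Place ℂ K => pord P (fun a => y a ^ M)) =
      fun P : Place ℂ K => (M : ℤ) • pord P y := by
    funext P
    rw [pord_pow P hy hM, smul_eq_mul]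
  rw [h1, ← smul_finsum, smul_eq_mul]
  ring

/-- **The dichotomy for curves in the covers.** -/
theorem cover_dich (d N : ℕ) : ∃ A : ℕ, ∀ {ι : Type} (F : ι → MvPolynomial (Fin (N + 1)) ℂ)
    (_ : ∀ i, ∃ e ≤ d, (F i).IsHomogeneous e) (Q : MvPolynomial (Fin (N + 1)) ℂ)
    (_ : ∃ e ≤ d, Q.IsHomogeneous e) (M : ℕ) (_ : 2 * (d + 2) ^ (2 * (N + 2)) ≤ M)
    (K : Type) [Field K] [Algebra ℂ K] [IsFF ℂ K] (S : Finset (Place ℂ K))
    (y : Fin (N + 1) → K), y ≠ 0 → (∀ i, aeval y (expand M (F i)) = 0) →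
    aeval y (expand M Q) ≠ 0 → (∀ P ∉ S, (M : ℤ) ∣ P.ord (aeval y (expand M Q))) →
    M * pht ℂ y ≤ A * max (canDeg ℂ K + S.card) 0 ∨
    ∃ T : Finset (Place ℂ K), ∀ P ∉ T, ∃ y' : Fin (N + 1) → ℂ, (∀ a, HV P (y a) (y' a)) ∧
      ∃ C, IsGmCurve (pow M F) (expand M Q) C ∧ Through C y' := by
  classical
  obtain ⟨A, hA⟩ := dich_core d (N + 1)
  refine ⟨A, ?_⟩
  intro ι F hF Q hQ M hM K _ _ _ S y hy hyF hyQ hyQS
  have hM0 : 0 < M := lt_of_lt_of_le (by positivity) hM
  obtain ⟨j0, hj0⟩ := Function.ne_iff.1 hy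
  rw [Pi.zero_apply] at hj0
  have hex : ∀ G : MvPolynomial (Fin (N + 1)) ℂ, aeval y (expand M G) =
      aeval (fun a => y a ^ M) G := fun G => aeval_expand M y G
  let u : Fin (N + 1) → K := fun j => if y j = 0 then 1 else y j ^ M
  let c : Fin (N + 1) → Fin (N + 1) → ℂ := fun j a => if y j ≠ 0 ∧ a = j then 1 else 0
  have hu : ∀ j, u j ≠ 0 := fun j => by
    simp only [u]
    split_ifs with h
    · exact one_ne_zero
    · exact pow_ne_zero _ h
  have huS : ∀ j, ∀ P ∉ S, (M : ℤ) ∣ P.ord (u j) := fun j P _ => by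
    simp only [u]
    split_ifs with h
    · rw [P.ord_one]; exact dvd_zero _
    · rw [P.ord_pow]; exact dvd_mul_right _ _
  have hterm : ∀ a, y a ^ M = ∑ j, u j * algebraMap ℂ K (c j a) := by
    intro a
    by_cases ha : y a = 0
    · rw [ha, zero_pow hM0.ne']
      symm
      refine Finset.sum_eq_zero fun j _ => ?_
      have : c j a = 0 := by
        simp only [c]
        refine if_neg fun h => h.1 ?_
        rw [← h.2]; exact ha
      rw [this, map_zero, mul_zero]
    · rw [Finset.sum_eq_single a]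
      · have hc1 : c a a = 1 := if_pos ⟨ha, rfl⟩
        have hu1 : u a = y a ^ M := if_neg ha
        rw [hc1, hu1, map_one, mul_one]
      · intro j _ hj
        have : c j a = 0 := by
          simp only [c]
          exact if_neg fun h => hj h.2.symm
        rw [this, map_zero, mul_zero]
      · intro h; exact absurd (Finset.mem_univ a) h
  have hx0 : (fun a => y a ^ M) ≠ 0 := by
    intro h0
    exact pow_ne_zero M hj0 (congrFun h0 j0)
  have hh : ∑ j, ∑ a, hgt ℂ (algebraMap ℂ K (c j a)) = 0 :=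
    Finset.sum_eq_zero fun j _ => Finset.sum_eq_zero fun a _ =>
      hgt_algebraic (isAlgebraic_algebraMap _)
  rcases hA F hF Q hQ M hM K S u (fun j a => algebraMap ℂ K (c j a)) (fun a => y a ^ M) hu huS
    hterm hx0 (fun i => by rw [← hex]; exact hyF i) (by rw [← hex]; exact hyQ)
    (fun P hP => by rw [← hex]; exact hyQS P hP) with h | ⟨b, T, h⟩
  · left
    rw [pht_pow ⟨j0, hj0⟩ hM0, hh, add_zero] at h
    exact h
  · right
    obtain ⟨T1, hT1⟩ := exists_supp (k := ℂ) Finset.univ y
    refine ⟨T ∪ T1, fun P hP => ?_⟩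
    rw [Finset.mem_union, not_or] at hP
    have hPy : ∀ a, P.ord (y a) = 0 := fun a => by
      by_contra h; exact hP.2 (hT1 a (Finset.mem_univ _) P h)
    choose y' hy' using fun a => exists_hv (P := P) (Or.inr (hPy a).ge : Ge P 0 (y a))
    obtain ⟨u', ρ', w, h1, h2, h3, h4, h5, h6, t0, ht0, a0, a1, hnc⟩ := h P hP.1
    have hρ : ∀ j a, ρ' j a = c j a := fun j a => (h2 j a).unique (hv_const _)
    have hy0 : ∀ a, y a = 0 → y' a = 0 := fun a ha => by
      have h7 := hy' a
      rw [ha] at h7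
      exact h7.eq_zero
    have hw : ∀ t a, w t a = y' a ^ M * t ^ b a := by
      intro t a
      rw [h4]
      by_cases ha : y a = 0
      · rw [hy0 a ha, zero_pow hM0.ne', zero_mul]
        refine Finset.sum_eq_zero fun j _ => ?_
        have : c j a = 0 := by
          simp only [c]
          refine if_neg fun h => h.1 ?_
          rw [← h.2]; exact ha
        rw [hρ, this, zero_mul]
      · rw [Finset.sum_eq_single a]
        · have h7 := h1 a
          simp only [u, if_neg ha] at h7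
          have hc1 : c a a = 1 := if_pos ⟨ha, rfl⟩
          rw [h7.unique ((hy' a).pow M), hρ, hc1, one_mul]
        · intro j _ hj
          have : c j a = 0 := by
            simp only [c]
            exact if_neg fun h => hj h.2.symm
          rw [hρ, this, zero_mul]
        · intro h; exact absurd (Finset.mem_univ a) h
    have hwM : ∀ t : ℂ, w (t ^ M) = fun j => (y' j * t ^ b j) ^ M := by
      intro t
      funext j
      rw [hw, mul_pow, ← zpow_natCast (t ^ b j), ← zpow_mul, ← zpow_natCast t M, ← zpow_mul,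
        mul_comm (b j)]
    refine ⟨y', hy', monCurve y' b, gm_of_mon (pow M F)
      (fun i => ⟨_, expand_hom (hF i).choose_spec.2⟩) (expand M Q)
      (expand_hom hQ.choose_spec.2) ⟨a1, a0, ?_, ?_, ?_⟩ fun t ht => ⟨fun i => ?_, ?_⟩⟩
    · intro hb
      apply hnc
      rw [hw, hw, hw, hw, hb]
      simp only [one_zpow]
      ring
    · intro h0
      apply hnc
      rw [hw, hw 1 a1, h0, zero_pow hM0.ne']
      ring
    · intro h0
      apply hnc
      rw [hw 1 a0, hw t0 a0, h0, zero_pow hM0.ne']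
      ring
    · rw [pow, eval_expand]
      have h7 := h5 i (t ^ M) (pow_ne_zero _ ht)
      rw [hwM] at h7
      exact h7
    · rw [eval_expand]
      have h7 := h6 (t ^ M) (pow_ne_zero _ ht)
      rw [hwM] at h7
      exact h7

end Pool.Agent.R849.FP
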